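import Pool.Agent.Helper17.WD.Mx

/-!
# DV-WILD, block A: the logarithmic barrier of a porous wall
-/

open Filter Topology GF

namespace DV.WD

/-- Euclidean distance in the plane -/
noncomputable def eu (x y : Pl) : ℝ := Real.sqrt ((x.1 - y.1) ^ 2 + (x.2 - y.2) ^ 2)

/-- the set `P` contains points in the shells of radii `8 (i + 1) a` around `z`, up to the radius `b`,
and the balls of radius `τ` around them are large enough for a barrier of size `b` -/
def Sh (P : Finset Pl) (τ : ℝ) (z : Pl) (b : ℝ) : Prop :=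
  ∃ (a : ℝ) (n : ℕ) (p : Fin n → Pl), 0 < a ∧ (∀ i, p i ∈ P) ∧
    (∀ i : Fin n, |eu (p i) z - 8 * ((i : ℝ) + 1) * a| ≤ a) ∧ 8 * a * n ≤ b ∧ b ≤ 16 * a * n ∧
    Real.log (3 * b / τ) ≤ n

end DV.WD
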