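import Pool.Agent.Helper27.GF.Cal1

/-!
# DV-WILD: the weak maximum principle for smooth functions on bounded open sets of the plane
-/

open Filter Topology GF

namespace DV.WD

lemma deriv2_le {g : ℝ → ℝ} {x : ℝ} (h : IsLocalMax g x) (hc : ContinuousAt g x) :
    deriv (deriv g) x ≤ 0 := by
  by_contra hlt
  push Not at hlt
  have h1 : IsLocalMin g x := isLocalMin_of_deriv_deriv_pos hlt h.deriv_eq_zero hc
  have h2 : g =ᶠ[𝓝 x] fun _ => g x := by
    filter_upwards [h, h1] with t ht ht'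
    exact le_antisymm ht ht'
  have h3 : deriv g =ᶠ[𝓝 x] fun _ => 0 := by
    filter_upwards [h2.eventuallyEq_nhds] with t ht
    rw [ht.deriv_eq, deriv_const]
  rw [h3.deriv_eq, deriv_const] at hlt
  exact lt_irrefl _ hlt

/-- second derivatives along a line -/
lemma second_line {v : Pl → ℝ} {z : Pl} (hv : ContDiffAt ℝ 2 v z) (e : Pl) :
    deriv (deriv fun t : ℝ => v (z + t • e)) 0 =
      fderiv ℝ (fun y => fderiv ℝ v y e) z e := by
  have hl : ∀ t : ℝ, HasDerivAt (fun t : ℝ => z + t • e) e t := by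
    intro t
    simpa using ((hasDerivAt_id t).smul_const e).const_add z
  have hz : Tendsto (fun t : ℝ => z + t • e) (𝓝 0) (𝓝 z) := by
    have := (hl 0).continuousAt.tendsto
    simpa using this
  have h1 : ∀ᶠ y in 𝓝 z, DifferentiableAt ℝ v y := by
    have := hv.eventually (by simp)
    filter_upwards [this] with y hy
    exact hy.differentiableAt (by simp)
  have h2 : (deriv fun t : ℝ => v (z + t • e)) =ᶠ[𝓝 0] fun t => fderiv ℝ v (z + t • e) e := by
    filter_upwards [hz.eventually h1] with t ht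
    exact (ht.hasFDerivAt.comp_hasDerivAt t (hl t)).deriv
  rw [h2.deriv_eq]
  have h3 : DifferentiableAt ℝ (fun y => fderiv ℝ v y e) z := by
    have h4 : ContDiffAt ℝ 1 (fderiv ℝ v) z := hv.fderiv_right (by norm_num)
    have h5 : DifferentiableAt ℝ (fderiv ℝ v) z := h4.differentiableAt (by simp)
    exact h5.clm_apply (differentiableAt_const e)
  have h4 : HasFDerivAt (fun y => fderiv ℝ v y e) (fderiv ℝ (fun y => fderiv ℝ v y e) z)
      (z + (0 : ℝ) • e) := by
    simpa using h3.hasFDerivAt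
  exact (h4.comp_hasDerivAt (0 : ℝ) (hl 0)).deriv

lemma lap_le_zero {v : Pl → ℝ} {z : Pl} (hv : ContDiffAt ℝ 2 v z) (hm : IsLocalMax v z) :
    lap v z ≤ 0 := by
  have key : ∀ e : Pl, fderiv ℝ (fun y => fderiv ℝ v y e) z e ≤ 0 := by
    intro e
    rw [← second_line hv e]
    have hz : Tendsto (fun t : ℝ => z + t • e) (𝓝 0) (𝓝 z) := by
      have : Continuous fun t : ℝ => z + t • e := by fun_prop
      have := this.tendsto 0
      simpa using this
    refine deriv2_le ?_ ?_
    · have := hz.eventually hm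
      show ∀ᶠ t in 𝓝 (0 : ℝ), v (z + t • e) ≤ v (z + (0 : ℝ) • e)
      simpa using this
    · have h1 : ContinuousAt v (z + (0 : ℝ) • e) := by simpa using hv.continuousAt
      exact ContinuousAt.comp (f := fun t : ℝ => z + t • e) h1 (by fun_prop)
  have := key (1, 0)
  have := key (0, 1)
  unfold lap dx dy
  linarith

lemma smooth_sq (c : Pl) : ContDiff ℝ (⊤ : ℕ∞) fun x : Pl => (x.1 - c.1) ^ 2 + (x.2 - c.2) ^ 2 := by
  fun_prop

lemma lap_sq (c z : Pl) : lap (fun x : Pl => (x.1 - c.1) ^ 2 + (x.2 - c.2) ^ 2) z = 4 := by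
  have h1 : dx (fun x : Pl => (x.1 - c.1) ^ 2 + (x.2 - c.2) ^ 2) = fun x => 2 * (x.1 - c.1) := by
    funext x
    have : HasFDerivAt (fun x : Pl => (x.1 - c.1) ^ 2 + (x.2 - c.2) ^ 2)
        ((2 * (x.1 - c.1)) • ContinuousLinearMap.fst ℝ ℝ ℝ +
          (2 * (x.2 - c.2)) • ContinuousLinearMap.snd ℝ ℝ ℝ) x := by
      have a1 : HasFDerivAt (fun x : Pl => x.1 - c.1) (ContinuousLinearMap.fst ℝ ℝ ℝ) x :=
        hasFDerivAt_fst.sub_const _
      have a2 : HasFDerivAt (fun x : Pl => x.2 - c.2) (ContinuousLinearMap.snd ℝ ℝ ℝ) x :=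
        hasFDerivAt_snd.sub_const _
      have := (a1.pow 2).add (a2.pow 2)
      refine this.congr_fderiv ?_
      ext <;> simp
    unfold dx
    rw [this.fderiv]
    simp
  have h2 : dy (fun x : Pl => (x.1 - c.1) ^ 2 + (x.2 - c.2) ^ 2) = fun x => 2 * (x.2 - c.2) := by
    funext x
    have : HasFDerivAt (fun x : Pl => (x.1 - c.1) ^ 2 + (x.2 - c.2) ^ 2)
        ((2 * (x.1 - c.1)) • ContinuousLinearMap.fst ℝ ℝ ℝ +
          (2 * (x.2 - c.2)) • ContinuousLinearMap.snd ℝ ℝ ℝ) x := by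
      have a1 : HasFDerivAt (fun x : Pl => x.1 - c.1) (ContinuousLinearMap.fst ℝ ℝ ℝ) x :=
        hasFDerivAt_fst.sub_const _
      have a2 : HasFDerivAt (fun x : Pl => x.2 - c.2) (ContinuousLinearMap.snd ℝ ℝ ℝ) x :=
        hasFDerivAt_snd.sub_const _
      have := (a1.pow 2).add (a2.pow 2)
      refine this.congr_fderiv ?_
      ext <;> simp
    unfold dy
    rw [this.fderiv]
    simp
  unfold lap
  rw [h1, h2]
  have h3 : HasFDerivAt (fun x : Pl => 2 * (x.1 - c.1)) ((2 : ℝ) • ContinuousLinearMap.fst ℝ ℝ ℝ) z :=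
    (hasFDerivAt_fst.sub_const _).const_mul 2
  have h4 : HasFDerivAt (fun x : Pl => 2 * (x.2 - c.2)) ((2 : ℝ) • ContinuousLinearMap.snd ℝ ℝ ℝ) z :=
    (hasFDerivAt_snd.sub_const _).const_mul 2
  unfold dx dy
  rw [h3.fderiv, h4.fderiv]
  simp
  norm_num

/-- the Laplacian of a sum, pointwise hypotheses -/
lemma lap_add_at {f g : Pl → ℝ} {z : Pl} (hf : ContDiffAt ℝ 2 f z) (hg : ContDiffAt ℝ 2 g z) :
    lap (fun x => f x + g x) z = lap f z + lap g z := by
  have key : ∀ e : Pl, fderiv ℝ (fun y => fderiv ℝ (fun x => f x + g x) y e) z e =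
      fderiv ℝ (fun y => fderiv ℝ f y e) z e + fderiv ℝ (fun y => fderiv ℝ g y e) z e := by
    intro e
    have h1 : ∀ᶠ y in 𝓝 z, fderiv ℝ (fun x => f x + g x) y e = fderiv ℝ f y e + fderiv ℝ g y e := by
      filter_upwards [hf.eventually (by simp), hg.eventually (by simp)] with y hy hy'
      rw [fderiv_fun_add (hy.differentiableAt (by simp)) (hy'.differentiableAt (by simp))]
      rfl
    have d : ∀ {k : Pl → ℝ}, ContDiffAt ℝ 2 k z → DifferentiableAt ℝ (fun y => fderiv ℝ k y e) z := by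
      intro k hk
      have h4 : ContDiffAt ℝ 1 (fderiv ℝ k) z := hk.fderiv_right (by norm_num)
      exact (h4.differentiableAt (by simp)).clm_apply (differentiableAt_const e)
    have h1' : (fun y => fderiv ℝ (fun x => f x + g x) y e) =ᶠ[𝓝 z]
        fun y => fderiv ℝ f y e + fderiv ℝ g y e := h1
    rw [h1'.fderiv_eq, fderiv_fun_add (d hf) (d hg)]
    rfl
  unfold lap dx dy
  rw [key (1, 0), key (0, 1)]
  ring

lemma lap_smul_at (c : ℝ) {f : Pl → ℝ} {z : Pl} (hf : ContDiffAt ℝ 2 f z) :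
    lap (fun x => c * f x) z = c * lap f z := by
  have key : ∀ e : Pl, fderiv ℝ (fun y => fderiv ℝ (fun x => c * f x) y e) z e =
      c * fderiv ℝ (fun y => fderiv ℝ f y e) z e := by
    intro e
    have h1 : ∀ᶠ y in 𝓝 z, fderiv ℝ (fun x => c * f x) y e = c * fderiv ℝ f y e := by
      filter_upwards [hf.eventually (by simp)] with y hy
      rw [fderiv_const_mul (hy.differentiableAt (by simp))]
      rfl
    have d : DifferentiableAt ℝ (fun y => fderiv ℝ f y e) z := by
      have h4 : ContDiffAt ℝ 1 (fderiv ℝ f) z := hf.fderiv_right (by norm_num)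
      exact (h4.differentiableAt (by simp)).clm_apply (differentiableAt_const e)
    have h1' : (fun y => fderiv ℝ (fun x => c * f x) y e) =ᶠ[𝓝 z]
        fun y => c * fderiv ℝ f y e := h1
    rw [h1'.fderiv_eq, fderiv_const_mul d]
    rfl
  unfold lap dx dy
  rw [key (1, 0), key (0, 1)]
  ring

/-- the weak maximum principle -/
theorem max_principle {U : Set Pl} (hU : IsOpen U) (hb : Bornology.IsBounded U) {w : Pl → ℝ}
    (hw : ContinuousOn w (closure U)) (hs : ∀ x ∈ U, ContDiffAt ℝ 2 w x)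
    (hl : ∀ x ∈ U, 0 ≤ lap w x) (hf : ∀ x ∈ frontier U, w x ≤ 0) : ∀ x ∈ U, w x ≤ 0 := by
  intro x₀ hx₀
  by_contra hpos
  push Not at hpos
  have hK : IsCompact (closure U) := hb.isCompact_closure
  obtain ⟨R, hR⟩ := hK.exists_bound_of_continuousOn (f := fun x : Pl => (x.1 - x₀.1) ^ 2 + (x.2 - x₀.2) ^ 2)
    (smooth_sq x₀).continuous.continuousOn
  have hR0 : 0 ≤ R := (norm_nonneg _).trans (hR x₀ (subset_closure hx₀))
  set η : ℝ := w x₀ / (2 * (R + 1)) with hη
  have hη0 : 0 < η := by positivity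
  have hηR : η * R < w x₀ := by
    rw [hη, div_mul_eq_mul_div, div_lt_iff₀ (by positivity)]
    nlinarith
  set q : Pl → ℝ := fun x => (x.1 - x₀.1) ^ 2 + (x.2 - x₀.2) ^ 2 with hq
  obtain ⟨x₁, hx₁, hmax⟩ := hK.exists_isMaxOn ⟨x₀, subset_closure hx₀⟩
    (f := fun x => w x + η * q x) (hw.add (continuousOn_const.mul (smooth_sq x₀).continuous.continuousOn))
  have h1 : w x₀ ≤ w x₁ + η * q x₁ := by
    have := hmax (subset_closure hx₀)
    simp only [hq] at this ⊢
    simpa using this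
  have h2 : x₁ ∈ U := by
    by_contra hn
    have hfr : x₁ ∈ frontier U := by
      rw [hU.frontier_eq]
      exact ⟨hx₁, hn⟩
    have h3 := hf x₁ hfr
    have h4 : q x₁ ≤ R := (le_abs_self _).trans (hR x₁ hx₁)
    nlinarith
  have h3 : IsLocalMax (fun x => w x + η * q x) x₁ := by
    filter_upwards [hU.mem_nhds h2] with y hy
    exact hmax (subset_closure hy)
  have hqc : ContDiffAt ℝ 2 q x₁ := ((smooth_sq x₀).of_le (WithTop.coe_le_coe.2 (le_top : (2 : ℕ∞) ≤ ⊤))).contDiffAt
  have h4 := lap_le_zero ((hs x₁ h2).add (contDiffAt_const.mul hqc)) h3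
  rw [lap_add_at (hs x₁ h2) (contDiffAt_const.mul hqc), lap_smul_at η hqc, lap_sq] at h4
  have := hl x₁ h2
  linarith

end DV.WD
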